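import Pool.Agent.H950.Nag.JacM

/-!
# The analytic rank of a Jacobian as a limit of averaged Mestre-Nagao sums

Let `C : y² = f(x)` be a hyperelliptic curve over `ℚ` (any genus), `J` its Jacobian, and `F` an
entire continuation of the `L`-function of `J` without the factors at the bad primes. Let `m` be the
order of `F` at `s = 1`, let `MN(x)` be the sum of `(#C(𝔽_q) - q - 1) log p / q` over the powers
`q ≤ x` of good primes `p`, `NA(κ, x)` the logarithmic average of `MN(n) - κ log n` over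
`2 ≤ n ≤ x`, and `MA(x)` the sum of `MN(n) / n` over `2 ≤ n ≤ x`, times `2 / (log x)^2`.

1. If `κ < m`, or if `F` has a zero with `Re s > 1`, then `MN(x) - κ log x` is unbounded above,
   even in logarithmic average.
2. Suppose that `F` has no real zero `> 1`. If `κ > m`, or if `F` has a zero with `Re s > 1`, then
   `MN(x) - κ log x` is unbounded below, even in logarithmic average.
3. Suppose that `F` has polynomial growth in `Re s ≥ 1`. Then the Riemann hypothesis (`F(s) ≠ 0` for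
   `Re s > 1`) holds if and only if `MA` is bounded above, if and only if `MA` converges, and then
   the limit is `m`.
-/

set_option autoImplicit false

open Filter Topology

namespace Pool.Agent.Results.MP_1d384c_nt.AveragedNagaoSums

open Pool.Agent.H438R3.BSD.Jac (IsL)
open Pool.Agent.H950.Nag.JacN

/-- See the introduction. -/
theorem result (f : Polynomial ℤ) (hd : 1 ≤ f.natDegree) (F : ℂ → ℂ) (hF : IsL f F) :
    ∃ m : ℕ, analyticOrderAt F 1 = m ∧
    (∀ κ : ℝ, (κ < m ∨ ∃ ρ : ℂ, 1 < ρ.re ∧ F ρ = 0) → ∀ C : ℝ,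
      (∃ᶠ x : ℕ in atTop, C < NA f κ x) ∧
      ∃ᶠ x : ℕ in atTop, κ * Real.log x + C < MN f x) ∧
    ((∀ σ : ℝ, 1 < σ → F σ ≠ 0) →
      ∀ κ : ℝ, ((m : ℝ) < κ ∨ ∃ ρ : ℂ, 1 < ρ.re ∧ F ρ = 0) → ∀ C : ℝ,
      (∃ᶠ x : ℕ in atTop, NA f κ x < C) ∧
      ∃ᶠ x : ℕ in atTop, MN f x < κ * Real.log x + C) ∧
    ((∃ C A : ℝ, ∀ s : ℂ, 1 ≤ s.re → ‖F s‖ ≤ C * (1 + ‖s‖) ^ A) →
      List.TFAE [
        ∀ s : ℂ, 1 < s.re → F s ≠ 0,
        ∃ C : ℝ, ∀ᶠ x : ℕ in atTop, MA f x ≤ C,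
        ∃ t : ℝ, Tendsto (fun x : ℕ => MA f x) atTop (𝓝 t),
        Tendsto (fun x : ℕ => MA f x) atTop (𝓝 m)] ∧
      ∀ κ : ℝ, Tendsto (fun x : ℕ => MA f x) atTop (𝓝 κ) ↔
        (∀ s : ℂ, 1 < s.re → F s ≠ 0) ∧ κ = m) := by
  obtain ⟨m, hm, h1, h2⟩ := main f hd F hF
  exact ⟨m, hm, h1, h2, fun hgr => equivMA f hd hF hgr m hm⟩

end Pool.Agent.Results.MP_1d384c_nt.AveragedNagaoSums
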