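import Pool.Agent.H319R3.BO.Jac

/-!
# Oscillation of the point counts of a hyperelliptic curve around the value predicted by the
`L`-function of its Jacobian

Let `J` be the Jacobian of the hyperelliptic curve `C : y² = f(x)` over `ℚ` (any genus `g`), `F` the
entire continuation of its (incomplete) `L`-function, `m` its order of vanishing at `s = 1` and
`l = lim F(s) / (s - 1) ^ m`. Let `SP(n)` be the sum of `(q + 1 - #C(𝔽_q)) / (k q)` over the powers
`q = p ^ k ≤ n` of the good primes, and `Dev(n) = - SP(n) - m log log n - (m γ - log |l|)`. Then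

1. `limsup Dev(n) log n ≥ k / |Im ρ|` for every nonreal zero `ρ` of `F` with `Re ρ = 1`, `k` its
multiplicity; if `F` has a zero with `Re ρ > 1`, then `Dev(n)` is unbounded above;

2. if `F` has no real zero greater than `1`, then `liminf Dev(n) log n ≤ - k / |Im ρ|` for these
zeros; if moreover `F` has a zero with `Re ρ > 1`, then `Dev(n)` is unbounded below.

So the sums cross the value `m log log n + (m γ - log |l|)` infinitely often, with an error
`Ω_±(1 / log n)`. Neither the Riemann hypothesis nor any bound for `F` is assumed. The case of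
elliptic curves over number fields is `MP_9ab903_nt.Oscillation`; the proof is described there.
-/

set_option autoImplicit false

open Filter Topology

namespace Pool.Agent.Results.MP_1d384c_nt.JacobianOscillation

open Pool.Agent.H438R3.BSD.Jac Pool.Agent.H319R3.BO.Jac

/-- See the introduction. -/
theorem result (f : Polynomial ℤ) (hd : 1 ≤ f.natDegree) (F : ℂ → ℂ) (hF : IsL f F) :
    ∃ (m : ℕ) (l : ℂ), analyticOrderAt F 1 = m ∧ l ≠ 0 ∧
      Tendsto (fun s : ℂ => F s / (s - 1) ^ m) (𝓝[≠] 1) (𝓝 l) ∧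
      ((∀ (ρ : ℂ) (k : ℕ), ρ.re = 1 → ρ.im ≠ 0 → analyticOrderAt F ρ = k →
          ∀ c : ℝ, c < k / |ρ.im| → ∃ᶠ n : ℕ in atTop, c / Real.log n < Dev f m l n) ∧
        ((∃ ρ : ℂ, 1 < ρ.re ∧ F ρ = 0) → ∀ B : ℝ, ∃ᶠ n : ℕ in atTop, B < Dev f m l n)) ∧
      ((∀ σ : ℝ, 1 < σ → F σ ≠ 0) →
        (∀ (ρ : ℂ) (k : ℕ), ρ.re = 1 → ρ.im ≠ 0 → analyticOrderAt F ρ = k →
          ∀ c : ℝ, c < k / |ρ.im| → ∃ᶠ n : ℕ in atTop, Dev f m l n < -(c / Real.log n)) ∧
        ((∃ ρ : ℂ, 1 < ρ.re ∧ F ρ = 0) → ∀ B : ℝ, ∃ᶠ n : ℕ in atTop, Dev f m l n < B)) := by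
  obtain ⟨m, l, hm, hl, hlim, H⟩ := oscJ f hd hF
  refine ⟨m, l, hm, hl, hlim, ⟨fun ρ k h1 h2 h3 c hc => ?_, fun ⟨ρ, h1, h2⟩ B => ?_⟩,
    fun hreal => ⟨fun ρ k h1 h2 h3 c hc => ?_, fun ⟨ρ, h1, h2⟩ B => ?_⟩⟩
  · have h := (H 1 (Or.inl rfl) (by norm_num)).2 ρ k h1 h2 h3 c hc
    simpa only [one_mul] using h
  · have h := (H 1 (Or.inl rfl) (by norm_num)).1 ρ h1 h2 B
    simpa only [one_mul] using h
  · have h := (H (-1) (Or.inr rfl) (fun _ => hreal)).2 ρ k h1 h2 h3 c hc
    refine h.mono fun n hn => ?_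
    linarith
  · have h := (H (-1) (Or.inr rfl) (fun _ => hreal)).1 ρ h1 h2 (-B)
    refine h.mono fun n hn => ?_
    linarith

end Pool.Agent.Results.MP_1d384c_nt.JacobianOscillation
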