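import Pool.Agent.H438R3.BSD.Jac

/-!
# Birch and Swinnerton-Dyer products of hyperelliptic Jacobians: one-sided bounds

Let `J` be the Jacobian of the hyperelliptic curve `C : y² = f(x)` over `ℚ` (any genus `g`), `F` the
entire continuation of its (incomplete) `L`-function, `m = ord_{s=1} F`, and `EP(x)` the product of
`#J(𝔽_p) / p^g` over the good primes `p ≤ x`. Then:

1. for every `κ < m` the logarithmic averages of `log EP(n) - κ log log n` (hence these numbers
themselves) are unbounded above; if `F` has a zero with `Re s > 1`, this holds for all `κ`;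

2. if `F` has no real zero greater than `1`, then for every `κ > m` these averages are
unbounded below; if moreover it has some zero with `Re s > 1`, this holds for all `κ`.

The numbers of points of the curve over all finite fields enter through the local factors; the
square root bound for them is from the starting file `Pool/Agent/H341R2/CurveFacts.lean`.
-/

set_option autoImplicit false

open Filter

namespace Pool.Agent.Results.MP_1d384c_nt.JacobianProducts

open Pool.Agent.H438R3.BSD.Jac

/-- See the introduction. -/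
theorem result (f : Polynomial ℤ) (hd : 1 ≤ f.natDegree) (F : ℂ → ℂ) (hF : IsL f F) :
    ∃ m : ℕ, analyticOrderAt F 1 = m ∧
    (∀ κ : ℝ, (κ < m ∨ ∃ ρ : ℂ, 1 < ρ.re ∧ F ρ = 0) → ∀ C : ℝ,
      (∃ᶠ x : ℕ in atTop, C < LA f κ x) ∧
      ∃ᶠ x : ℕ in atTop, C * Real.log x ^ κ < EP f x) ∧
    ((∀ σ : ℝ, 1 < σ → F σ ≠ 0) →
      ∀ κ : ℝ, ((m : ℝ) < κ ∨ ∃ ρ : ℂ, 1 < ρ.re ∧ F ρ = 0) → ∀ C : ℝ, 0 < C →
      (∃ᶠ x : ℕ in atTop, LA f κ x < -C) ∧
      ∃ᶠ x : ℕ in atTop, EP f x < C * Real.log x ^ κ) :=
  main f hd hF

end Pool.Agent.Results.MP_1d384c_nt.JacobianProducts
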